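import Pool.Agent.H68.GCL.Targets

/-!
MP_d2582e_lc: modules HAT and HSI (board gcl_modules): symbols as letters.
-/

namespace Pool.Agent.H67.GCL

open Pool.Agent.H76.SW Pool.Agent.H68.GCL

theorem hl_inl {A : Type} (L : List (RQ A)) {c : ℕ} (sub : Fin c → RQ A) (a : A) (β : Bool) :
    hl L sub (Sum.inl a, β) = (Sum.inl (Sum.inl a), β) := rfl

open Classical in
theorem hl_pos {A : Type} (L : List (RQ A)) {c : ℕ} (sub : Fin c → RQ A) (j : Fin c) (β : Bool)
    (h : sub j ∈ L) : hl L sub (Sum.inr j, β) = (Sum.inl (Sum.inr ⟨sub j, h⟩), β) := by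
  unfold hl
  simp only [dif_pos h]

open Classical in
theorem hl_neg {A : Type} (L : List (RQ A)) {c : ℕ} (sub : Fin c → RQ A) (j : Fin c) (β : Bool)
    (h : sub j ∉ L) : hl L sub (Sum.inr j, β) = (Sum.inr j, β) := by
  unfold hl
  simp only [dif_neg h]

open Classical in
theorem hatB_holds (h1 : T_REL) {A V : Type} (L : List (RQ A)) (E : V → A → V → Prop) {c : ℕ}
    (b : Body A c) (sub : Fin c → RQ A)
    (ih : ∀ j, ∀ u v : V, (hat L (sub j)).Sat (plus E (fun x : Nm L => x.1)) u v ↔
      (sub j).Sat E u v) (μ : Fin b.n → V) :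
    (hatB L b sub).Holds (plus E (fun x : Nm L => x.1))
      (fun j => (if sub j ∈ L then bot else hat L (sub j)).Sat (plus E (fun x : Nm L => x.1))) μ ↔
    b.Holds E (fun j => (sub j).Sat E) μ := by
  have hstep : ∀ l u v, Step (ext (plus E (fun x : Nm L => x.1))
      (fun j => (if sub j ∈ L then bot else hat L (sub j)).Sat (plus E (fun x : Nm L => x.1))))
      u (hl L sub l) v ↔ Step (ext E (fun j => (sub j).Sat E)) u l v := by
    rintro ⟨a | j, β⟩ u v
    · rw [hl_inl]
      exact Iff.rfl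
    · by_cases h : sub j ∈ L
      · rw [hl_pos L sub j β h]
        exact Iff.rfl
      · rw [hl_neg L sub j β h]
        have e : ∀ x y, ext (plus E (fun x : Nm L => x.1))
            (fun j => (if sub j ∈ L then bot else hat L (sub j)).Sat
              (plus E (fun x : Nm L => x.1))) x (Sum.inr j) y ↔
            ext E (fun j => (sub j).Sat E) x (Sum.inr j) y := by
          intro x y
          show (if sub j ∈ L then bot else hat L (sub j)).Sat (plus E (fun x : Nm L => x.1)) x y ↔
            (sub j).Sat E x y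
          rw [if_neg h]
          exact ih j x y
        unfold Step
        cases β
        · simp only [Bool.false_eq_true, if_false]
          exact e v u
        · simp only [if_true]
          exact e u v
  have hpath := h1.2 (hl L sub) (ext E (fun j => (sub j).Sat E))
    (ext (plus E (fun x : Nm L => x.1))
      (fun j => (if sub j ∈ L then bot else hat L (sub j)).Sat (plus E (fun x : Nm L => x.1)))) hstep
  unfold Body.Holds
  refine forall_congr' fun i => ?_
  constructor
  · rintro ⟨w', hw', hp⟩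
    obtain ⟨w, hw, rfl⟩ := (h1.1 (hl L sub) (b.aut i) w').1 hw'
    exact ⟨w, hw, (hpath w _ _).1 hp⟩
  · rintro ⟨w, hw, hp⟩
    exact ⟨w.map (hl L sub), (h1.1 (hl L sub) (b.aut i) _).2 ⟨w, hw, rfl⟩, (hpath w _ _).2 hp⟩

open Classical in
theorem hat_sat (h1 : T_REL) {A V : Type} (L : List (RQ A)) (E : V → A → V → Prop) :
    ∀ (ω : RQ A) (u v : V), (hat L ω).Sat (plus E (fun x : Nm L => x.1)) u v ↔ ω.Sat E u v
  | .cq c b sub p q, u, v => by
    have ih := fun j => hat_sat h1 L E (sub j)
    show (∃ μ : Fin b.n → V, (hatB L b sub).Holds (plus E (fun x : Nm L => x.1))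
      (fun j => (if sub j ∈ L then bot else hat L (sub j)).Sat (plus E (fun x : Nm L => x.1))) μ ∧
        μ p = u ∧ μ q = v) ↔
      ∃ μ : Fin b.n → V, b.Holds E (fun j => (sub j).Sat E) μ ∧ μ p = u ∧ μ q = v
    refine exists_congr fun μ => and_congr_left fun _ => ?_
    exact hatB_holds h1 L E b sub ih μ
  | .union n sub, u, v => by
    have ih := fun j => hat_sat h1 L E (sub j)
    show (∃ j, (hat L (sub j)).Sat (plus E (fun x : Nm L => x.1)) u v) ↔ ∃ j, (sub j).Sat E u v
    exact exists_congr fun j => ih j u v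

open Classical in
theorem pf_HAT (h1 : T_REL) : T_HAT := by
  intro A V L E
  refine ⟨hat_sat h1 L E, fun r t z => ?_⟩
  show (∃ μ : Fin t.b.n → V, (hatB L t.b t.sub).Holds (plus E (fun x : Nm L => x.1))
      (fun j => (if t.sub j ∈ L then bot else hat L (t.sub j)).Sat
        (plus E (fun x : Nm L => x.1))) μ ∧ ∀ i, μ (t.out i) = z i) ↔
    ∃ μ : Fin t.b.n → V, t.b.Holds E (fun j => (t.sub j).Sat E) μ ∧ ∀ i, μ (t.out i) = z i
  refine exists_congr fun μ => and_congr_left fun _ => ?_
  exact hatB_holds h1 L E t.b t.sub (fun j => hat_sat h1 L E (t.sub j)) μ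

theorem mem_lang {α : Type} (w w0 : List α) : w ∈ ({w0} : Language α) ↔ w = w0 :=
  Set.mem_singleton_iff

theorem body_simple (h1 : T_REL) {A : Type} (k : ℕ) (L : List (RQ A)) {c : ℕ} (b : Body A c)
    (sub : Fin c → RQ A) (hb : BodyGC b (fun j => GW k (sub j)))
    (hL : ∀ j, GW k (sub j) → sub j ∈ L) : (hatB L b sub).Simple := by
  intro i
  rcases hb i with h | ⟨j, h⟩
  · left
    intro w' hw' l' hl'
    obtain ⟨w, hw, rfl⟩ := (h1.1 (hl L sub) (b.aut i) w').1 hw'
    obtain ⟨⟨x, β⟩, hlw, rfl⟩ := List.mem_map.1 hl'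
    rcases h w hw _ hlw with ⟨a, ha⟩ | ⟨j, hj, hS⟩
    · simp only at ha
      subst ha
      exact ⟨Sum.inl a, rfl⟩
    · simp only at hj
      subst hj
      rw [hl_pos L sub j β (hL j hS)]
      exact ⟨_, rfl⟩
  · by_cases hj : sub j ∈ L
    · left
      intro w' hw' l' hl'
      obtain ⟨w, hw, rfl⟩ := (h1.1 (hl L sub) (b.aut i) w').1 hw'
      rw [h, mem_lang] at hw
      subst hw
      rw [List.map_singleton, hl_pos L sub j true hj, List.mem_singleton] at hl'
      subst hl'
      exact ⟨_, rfl⟩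
    · right
      refine ⟨j, ?_⟩
      ext w'
      show w' ∈ (rel (hl L sub) (b.aut i)).accepts ↔ _
      rw [h1.1 (hl L sub) (b.aut i) w', h]
      constructor
      · rintro ⟨w, hw, rfl⟩
        rw [mem_lang] at hw
        subst hw
        rw [List.map_singleton, hl_neg L sub j true hj]
        rfl
      · intro hw'
        rw [mem_lang] at hw'
        refine ⟨[(Sum.inr j, true)], rfl, ?_⟩
        rw [List.map_singleton, hl_neg L sub j true hj, hw']

theorem bot_simple {A : Type} : (bot : RQ A).Simple := fun j => j.elim0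

theorem size_pos {A : Type} : ∀ ω : RQ A, 1 ≤ ω.size
  | .cq c b sub p q => by
    show 1 ≤ 1 + b.size + ∑ j, (sub j).size
    omega
  | .union n sub => by
    show 1 ≤ 1 + n + ∑ j, (sub j).size
    omega

theorem bot_size {A : Type} : (bot : RQ A).size = 1 := by
  show 1 + 0 + ∑ j : Fin 0, _ = 1
  simp

open Classical in
theorem sub_size {A : Type} (L : List (RQ A)) (ω : RQ A) (h : (hat L ω).size ≤ ω.size) :
    (if ω ∈ L then (bot : RQ (A ⊕ Nm L)) else hat L ω).size ≤ ω.size := by
  split_ifs
  · rw [bot_size]; exact size_pos ω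
  · exact h

open Classical in
theorem hat_size {A : Type} (L : List (RQ A)) : ∀ ω : RQ A, (hat L ω).size ≤ ω.size
  | .cq c b sub p q => by
    have ih := fun j => hat_size L (sub j)
    show 1 + (hatB L b sub).size +
      ∑ j, (if sub j ∈ L then (bot : RQ (A ⊕ Nm L)) else hat L (sub j)).size ≤
      1 + b.size + ∑ j, (sub j).size
    have e : (hatB L b sub).size = b.size := rfl
    rw [e]
    exact Nat.add_le_add_left (Finset.sum_le_sum fun j _ => sub_size L (sub j) (ih j)) _
  | .union n sub => by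
    have ih := fun j => hat_size L (sub j)
    show 1 + n + ∑ j, (hat L (sub j)).size ≤ 1 + n + ∑ j, (sub j).size
    exact Nat.add_le_add_left (Finset.sum_le_sum fun j _ => ih j) _

open Classical in
theorem hat_simple (h1 : T_REL) {A : Type} (k : ℕ) (L : List (RQ A)) :
    ∀ ω : RQ A, gc k ω → (∀ x ∈ subs ω, GW k x → x ∈ L) → (hat L ω).Simple
  | .cq c b sub p q => by
    intro hg hL
    have ih := fun j => hat_simple h1 k L (sub j)
    obtain ⟨hb, hs⟩ := hg
    have hmem : ∀ j, sub j ∈ subs (.cq c b sub p q) := fun j =>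
      List.mem_append_left _ (List.mem_ofFn.2 ⟨j, rfl⟩)
    have hsub : ∀ j, ∀ x ∈ subs (sub j), x ∈ subs (.cq c b sub p q) := fun j x hx =>
      List.mem_append_right _ (List.mem_flatten.2 ⟨_, List.mem_ofFn.2 ⟨j, rfl⟩, hx⟩)
    show (hatB L b sub).Simple ∧
      ∀ j, (if sub j ∈ L then (bot : RQ (A ⊕ Nm L)) else hat L (sub j)).Simple
    refine ⟨body_simple h1 k L b sub hb (fun j hj => hL _ (hmem j) hj), fun j => ?_⟩
    by_cases hj : sub j ∈ L
    · rw [if_pos hj]; exact bot_simple
    · rw [if_neg hj]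
      refine ih j ((hs j).resolve_left fun h => hj (hL _ (hmem j) h)) fun x hx => hL x (hsub j x hx)
  | .union n sub => by
    intro hg hL
    have ih := fun j => hat_simple h1 k L (sub j)
    have hsub : ∀ j, ∀ x ∈ subs (sub j), x ∈ subs (.union n sub) := fun j x hx =>
      List.mem_flatten.2 ⟨_, List.mem_ofFn.2 ⟨j, rfl⟩, hx⟩
    show ∀ j, (hat L (sub j)).Simple
    exact fun j => ih j (hg j) fun x hx => hL x (hsub j x hx)

open Classical in
theorem pf_HSI (h1 : T_REL) : T_HSI := by
  intro A k L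
  refine ⟨hat_simple h1 k L, hat_size L, ?_, ?_⟩
  · intro r t hb hs hL
    have hmem : ∀ j, t.sub j ∈ csubs t := fun j =>
      List.mem_append_left _ (List.mem_ofFn.2 ⟨j, rfl⟩)
    have hsub : ∀ j, ∀ x ∈ subs (t.sub j), x ∈ csubs t := fun j x hx =>
      List.mem_append_right _ (List.mem_flatten.2 ⟨_, List.mem_ofFn.2 ⟨j, rfl⟩, hx⟩)
    refine ⟨body_simple h1 k L t.b t.sub hb (fun j hj => hL _ (hmem j) hj), fun j => ?_⟩
    show (if t.sub j ∈ L then (bot : RQ (A ⊕ Nm L)) else hat L (t.sub j)).Simple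
    by_cases hj : t.sub j ∈ L
    · rw [if_pos hj]; exact bot_simple
    · rw [if_neg hj]
      exact hat_simple h1 k L _ ((hs j).resolve_left fun h => hj (hL _ (hmem j) h))
        fun x hx => hL x (hsub j x hx)
  · intro r t
    show 1 + (hatB L t.b t.sub).size +
      ∑ j, (if t.sub j ∈ L then (bot : RQ (A ⊕ Nm L)) else hat L (t.sub j)).size ≤
      1 + t.b.size + ∑ j, (t.sub j).size
    have e : (hatB L t.b t.sub).size = t.b.size := rfl
    rw [e]
    exact Nat.add_le_add_left (Finset.sum_le_sum fun j _ => sub_size L (t.sub j) (hat_size L _)) _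

end Pool.Agent.H67.GCL
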